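import Pool.Agent.EDX.Stmts2
import Pool.Agent.Helper24_EDG.MOA

set_option autoImplicit false

namespace Pool.Agent.EDX.H2

open Polynomial Finset Pool.Agent.EDG Pool.Agent.EDX

theorem vt_F (θ : FF) : vt θ F = C (θ ^ 2) := by
  rw [F, map_add, map_pow, vt_X, map_mul, vt_C, Polynomial.map_mul]
  have h : (2 : ℤ[X]).map (Int.castRingHom FF) = 0 := by
    rw [Polynomial.map_ofNat]
    have h : ((2 : ℕ) : FF[X]) = 0 := CharP.cast_eq_zero FF[X] 2
    exact_mod_cast h
  rw [h, zero_mul, zero_mul, add_zero, C_pow]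

/-- substitution of `F` -/
theorem vt_comp_F (θ : FF) (ψ : ℤ[X][X]) : vt θ (ψ.comp F) = vt (θ ^ 2) ψ := by
  have h : (vt θ).comp (eval₂RingHom C F) = vt (θ ^ 2) := by
    apply Polynomial.ringHom_ext
    · intro a
      simp only [RingHom.comp_apply, coe_eval₂RingHom, eval₂_C, vt_C]
    · simp only [RingHom.comp_apply, coe_eval₂RingHom, eval₂_X, vt_X, vt_F]
  exact congrArg (fun φ => φ ψ) h

theorem vt_Fit (p : ℕ) : ∀ θ : FF, vt θ (Fit p) = C (θ ^ (2 ^ p)) := by
  induction p with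
  | zero => intro θ; rw [Fit, vt_X, pow_zero, pow_one]
  | succ k ih =>
    intro θ
    rw [Fit, vt_comp_F, ih, ← pow_mul, pow_succ' 2 k]

theorem ndv : NdvStmt := by
  intro n g hc θ ψ p hθ hψ hd
  have hn : 0 < n := hc.1
  classical
  have hroot : aeval θ g = 0 := by
    unfold rts at hθ
    rw [Multiset.mem_toFinset] at hθ
    have h1 := (Polynomial.mem_roots'.mp hθ).2
    rw [IsRoot.def, eval_map] at h1
    rw [aeval_def]
    exact h1
  obtain ⟨h0, h1⟩ := Pool.Agent.EDG.H24.moa n g hc FF θ hroot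
  have h2 : θ ^ (2 ^ p) = θ := by
    obtain ⟨c, hc'⟩ := hd
    have h3 : vt θ (Fit p - X) = 0 := by rw [hc', map_mul, hψ, zero_mul]
    rw [map_sub, vt_Fit, vt_X, ← C_sub, C_eq_zero, sub_eq_zero] at h3
    exact h3
  have h4 : ∀ q : ℕ, θ ^ (2 ^ (n * q)) = θ := by
    intro q
    induction q with
    | zero => rw [mul_zero, pow_zero, pow_one]
    | succ k ih => rw [Nat.mul_succ, pow_add, pow_mul, ih, h0]
  have h5 : θ ^ (2 ^ (p % n)) = θ := by
    have h6 : θ ^ (2 ^ p) = θ ^ (2 ^ (p % n)) := by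
      conv_lhs => rw [← Nat.div_add_mod p n, pow_add, pow_mul, h4]
    rw [← h6, h2]
  rcases Nat.eq_zero_or_pos (p % n) with h | h
  · exact Nat.dvd_of_mod_eq_zero h
  · exact absurd h5 (h1 _ h (Nat.mod_lt _ hn))

end Pool.Agent.EDX.H2
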